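import Pool.Agent.H52.DA.Bridge
import Pool.Agent.H52.DA.NMain
import Pool.Agent.H52.DA.Geo

/-!
# A `D`-affine globally F-split variety for which `F_* O_X` is not tilting (MP_5ac764_ag, Q2)

Let `k` be a perfect field of characteristic two and let `X` be the projective plane over `k`. Then
`X` is a smooth projective variety, it is globally F-split and `D`-affine, but `F_* O_X` is not
tilting: it does not classically generate `D^b(Coh X)`.

Proof. `D`-affinity: let `N = 2^e` with `e ≥ 2`. In homogeneous coordinates the divided power
operators satisfy `∑ ∂^[α] x^α = binom(N+2, N) = 1`, the sum being over the `α` with `|α| = N`, and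
`∂^[α] x_j^N` is a differential operator of degree `0`, regular on the chart `x_j ≠ 0`. These
operators contract the Čech complex of each quasi-coherent `D_X`-module and produce global
sections. Generation: all `Ext^i(O(1), F_* O_X) = H^i(X, O(-2))` vanish.
-/

set_option autoImplicit false

open CategoryTheory AlgebraicGeometry
open Pool.Agent.H835R3 Pool.Agent.H52.DA

attribute [local instance] MvPolynomial.gradedAlgebra

namespace Pool.Agent.Results.MP_5ac764_ag.DAffineNotTilting

/-- For every perfect field `k` of characteristic two the projective plane `X` over `k` is an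
integral, smooth, projective scheme over `k`, globally F-split and `D`-affine, but the module
`F_* O_X` does not classically generate `D^b(Coh X)`; in particular it is not tilting. -/
theorem result (k : Type) [Field k] [CharP k 2] [PerfectRing k 2] :
    IsIntegral (Stmt.PP k 2) ∧
    SmoothOfRelativeDimension 2
      (Stmt.toSpecK (MvPolynomial.homogeneousSubmodule (Fin (2 + 1)) k)) ∧
    Stmt.IsProjectiveOver (Stmt.toSpecK (MvPolynomial.homogeneousSubmodule (Fin (2 + 1)) k)) ∧
    Stmt.GloballyFSplit (Stmt.PP k 2) 2 ∧
    Stm.IsDAffine (Stmt.PP k 2) 2 ∧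
    ∃ hX : HasChar (Stmt.PP k 2) 2,
      ¬ ClassicallyGenerates (frobPush (Stmt.PP k 2) 2 1 Nat.prime_two hX) ∧
      ¬ IsTilting (frobPush (Stmt.PP k 2) 2 1 Nat.prime_two hX) :=
  ⟨inferInstanceAs (IsIntegral (P2 k)), smooth_P2 k, projective_P2 k, globallyFSplit_P2 2,
    isDAffine_of_old (isDAffine_P2 k), hasChar_P2 k, not_classicallyGenerates _, not_isTilting _⟩

end Pool.Agent.Results.MP_5ac764_ag.DAffineNotTilting
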